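import Pool.Agent.P8H6.Idx.Main

set_option autoImplicit false

/-!
# Goldbach representations `2 n = q + q'` with `p_{q + 2} + h` (and `p_{q' + 2} + h'`) prime

The question asks for a prime `q` with `2 n - q` and `p_{q + 2} + 2` prime, for every `n > 2`. Here `2` is replaced by
shifts `h` which are multiples of the product `P(y)` of the primes up to `y ≍ log log N`: for almost all `2 n` in every
family of even numbers of nearly minimal additive energy (for example all the even numbers up to `2 N`, or the even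
values of a polynomial), and for almost all multiples `h` of `P(y)` in every window which is not too short, the number
of the primes `q` with `2 n - q` and `p_{q + 2} + h` prime is at least `1 - ε` times the expected number
`𝔖(2 n) (2 n / log² 2 n) / (V(y) log N)`. The corresponding statement holds for the `q` with `q' = 2 n - q` prime and
both `p_{q + 2} + h` and `p_{q' + 2} + h'` prime, for almost all pairs `(h, h')`.
-/

namespace Pool.Agent.Results.MP_0ec542_nt.AlmostAllShifts

open Finset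

/-- The `k`-th prime: `p 1 = 2`, `p 2 = 3`, and so on. -/
noncomputable def p (k : ℕ) : ℕ := Nat.nth Nat.Prime (k - 1)

/-- The primes `q < m` with `m - q` and `p (q + 2) + h` prime. The question is whether `one (2 n) 2` is not empty for
every `n > 2`. -/
noncomputable def one (m h : ℕ) : Finset ℕ :=
  (range m).filter (fun q => q.Prime ∧ (m - q).Prime ∧ (p (q + 2) + h).Prime)

/-- The primes `q < m` with `q' = m - q`, `p (q + 2) + h` and `p (q' + 2) + h'` prime. -/
noncomputable def two (m h h' : ℕ) : Finset ℕ :=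
  (range m).filter (fun q => q.Prime ∧ (m - q).Prime ∧ (p (q + 2) + h).Prime ∧
    (p (m - q + 2) + h').Prime)

/-- The twin prime constant, the infimum (the limit) of the partial products. -/
noncomputable def C₂ : ℝ := ⨅ z : ℕ, ∏ p ∈ (Icc 3 z).filter Nat.Prime, (1 - 1 / ((p : ℝ) - 1) ^ 2)

/-- The Hardy-Littlewood prediction `2 C₂ ∏_{p ∣ m, p > 2} (p - 1) / (p - 2) * m / log² m` for the number of the
primes `q < m` with `m - q` prime. -/
noncomputable def HL (m : ℕ) : ℝ :=
  2 * C₂ * (∏ p ∈ m.primeFactors.filter (fun p => 2 < p), ((p : ℝ) - 1) / ((p : ℝ) - 2)) *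
    (m / Real.log m ^ 2)

/-- `V y = ∏_{p ≤ y} (1 - 1 / p)`. An integer `n ≤ N` prime to all `p ≤ y` is prime with probability
`1 / (V y log N)`. -/
noncomputable def V (y : ℕ) : ℝ := ∏ p ∈ (Icc 1 y).filter Nat.Prime, (1 - 1 / (p : ℝ))

/-- The additive energy of order `k` of the family `s 1, ..., s x`: the number of solutions of
`s (v 1) + ... + s (v k) = s (w 1) + ... + s (w k)` with all `v i`, `w i` in `{1, ..., x}`. -/
def energy (k x : ℕ) (s : ℕ → ℕ) : ℕ :=
  (((Fintype.piFinset fun _ : Fin k => Icc 1 x) ×ˢ (Fintype.piFinset fun _ : Fin k => Icc 1 x)).filter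
    (fun q => ∑ i, s (q.1 i) = ∑ i, s (q.2 i))).card

/-- The even number `m` is good for the windows of shifts `P (g₀ + t)`, `1 ≤ t ≤ G`, and `P (g₁ + t)`, `1 ≤ t ≤ G'`,
where `P` is the product of the primes up to `y`:
`m` is in at least `(1 - ε) HL m` ways a sum `q + q'` of two primes; for all but `ε G` of the shifts `h` of the
first window at least `(1 - ε) HL m / (V y log N)` of the `q` have `p (q + 2) + h` prime; and for all but `ε G G'` of
the pairs of shifts at least `(1 - ε) HL m / (V y log N) ^ 2` of the `q` have `p (q + 2) + h` and `p (q' + 2) + h'`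
prime. -/
def Good (ε : ℝ) (N y g₀ G g₁ G' m : ℕ) : Prop :=
  (1 - ε) * HL m ≤ (((range m).filter (fun q => q.Prime ∧ (m - q).Prime)).card : ℝ) ∧
  (((Icc 1 G).filter (fun t => ((one m (primorial y * (g₀ + t))).card : ℝ) <
    (1 - ε) * (HL m / (V y * Real.log N)))).card : ℝ) ≤ ε * G ∧
  (((Icc 1 G ×ˢ Icc 1 G').filter (fun t => ((two m (primorial y * (g₀ + t.1))
    (primorial y * (g₁ + t.2))).card : ℝ) < (1 - ε) * (HL m / (V y * Real.log N) ^ 2))).card : ℝ) ≤
      ε * (G * G')

/-- Let `k, B ≥ 1`, `C`, `U` and `0 < ε ≤ 1`. There is a `K₀` such that for all `K₁` and all large `N` the following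
holds for all `y` between `K₀ log log N` and `K₁ log log N`, all windows of shifts up to `N` of length at least
`N / (log N) ^ C`, and all families `s 1, ..., s x` of even numbers between `N / (log N) ^ C` and `B N` whose additive
energy of order `k` is at most `(log N) ^ C` times the minimal possible size `x ^ (2 k) / N`: all the members `s m`
with at most `x / (log N) ^ U` exceptions are good. -/
theorem result (k B C U : ℕ) (hk : 1 ≤ k) (hB : 1 ≤ B) (ε : ℝ) (hε : 0 < ε) (hε1 : ε ≤ 1) :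
    ∃ K₀ : ℕ, ∀ K₁ : ℕ, ∃ N₀ : ℕ, ∀ N : ℕ, N₀ ≤ N →
    ∀ y : ℕ, K₀ * Real.log (Real.log N) ≤ y → y ≤ K₁ * Real.log (Real.log N) →
    ∀ g₀ G : ℕ, primorial y * (g₀ + G) ≤ N → (N : ℝ) ≤ primorial y * G * Real.log N ^ C →
    ∀ g₁ G' : ℕ, primorial y * (g₁ + G') ≤ N → (N : ℝ) ≤ primorial y * G' * Real.log N ^ C →
    ∀ (x : ℕ) (s : ℕ → ℕ),
      (∀ m ∈ Icc 1 x, 2 ∣ s m ∧ s m ≤ B * N ∧ (N : ℝ) ≤ s m * Real.log N ^ C) →
      (energy k x s : ℝ) * N ≤ Real.log N ^ C * (x : ℝ) ^ (2 * k) →
      ({m : ℕ | 1 ≤ m ∧ m ≤ x ∧ ¬ Good ε N y g₀ G g₁ G' (s m)}.ncard : ℝ) ≤ x / Real.log N ^ U := by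
  obtain ⟨K₀, hK₀⟩ := Pool.Agent.P8H6.Idx.main k B C U hk hB ε hε hε1
  refine ⟨K₀, fun K₁ => ?_⟩
  obtain ⟨N₀, hN₀⟩ := hK₀ K₁
  refine ⟨N₀, fun N hN y hy1 hy2 g₀ G hg1 hg2 g₁ G' hg3 hg4 x s hs hen => ?_⟩
  refine le_trans ?_ (hN₀ N hN y hy1 hy2 g₀ G hg1 hg2 g₁ G' hg3 hg4 x s hs hen)
  rw [Nat.cast_le]
  apply Set.ncard_le_ncard
  · rintro m ⟨h1, h2, h3⟩
    refine ⟨h1, h2, fun h4 => h3 ?_⟩
    obtain ⟨h5, h6, h7⟩ := h4
    refine ⟨h5.trans ?_, h6, h7⟩
    exact_mod_cast Pool.Agent.P8H6.Idx.g_le (s m)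
  · exact (Set.finite_Icc 1 x).subset fun m hm => ⟨hm.1, hm.2.1⟩

end Pool.Agent.Results.MP_0ec542_nt.AlmostAllShifts
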