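import Pool.Agent.P8H89.GM.La
import Pool.Agent.P8H89.GM.Ix
import Pool.Agent.Results.MP_dd84fd_nt.QuadraticNeighbourhoods

/-!
# Every large integer is a sum of very few elements of an arbitrary set and of an integer `v`, such that all the even
multiples `m` of all the neighbours of `v` are sums `m = q + q'` of primes for which `p_{q + 2} + h` (and
`p_{q' + 2} + h'`) are prime, for almost all shifts

The question asks, for every even `m = 2 n > 4`, for a prime `q` with `m - q` and `p_{q + 2} + 2` prime. Here `2` is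
replaced by almost all multiples `h` of the product of the primes up to `y ≍ log log m`. The set of the `q` may be
restricted to long windows, and to arbitrary subsets of a density at least a negative power of `log m`.

The statement uses the following definition from `Pool.Agent.H560R3.GB`: `sing m`: the singular series
`2 C₂ ∏_{p ∣ m, p > 2} (p - 1) / (p - 2)`, where `C₂ = ∏_{p > 2} (1 - 1 / (p - 1) ^ 2)`.
-/

set_option autoImplicit false

namespace Pool.Agent.Results.MP_0ec542_nt.ElementsOfAnySet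

open Finset Pool.Agent.H560R3.GB

/-- The `k`-th prime: `p 1 = 2`, `p 2 = 3`, and so on. -/
noncomputable def p (k : ℕ) : ℕ := Nat.nth Nat.Prime (k - 1)

/-- The primes `q` in `(y₁, y₂]` with `m - q` prime. -/
def Gb (m y₁ y₂ : ℕ) : Finset ℕ := (Ioc y₁ y₂).filter (fun q => q.Prime ∧ (m - q).Prime)

/-- `V y = ∏_{p ≤ y} (1 - 1 / p)`. An integer `n ≤ m` prime to all `p ≤ y` is prime with probability
`1 / (V y log m)`. -/
noncomputable def V (y : ℕ) : ℝ := ∏ p ∈ (Icc 1 y).filter Nat.Prime, (1 - 1 / (p : ℝ))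

/-- For all windows `(y₁, y₂] ⊆ (0, m]` of length at least `m / log ^ A m` the number of the `q` in the window with
`q` and `m - q` prime is at least `1.3 (y₂ - y₁) / log ^ 2 m`, and it is `sing m * (y₂ - y₁) / log ^ 2 m` up to a
relative error of at most `ε`. -/
def Windows (ε : ℝ) (A m : ℕ) : Prop :=
  ∀ y₁ y₂ : ℕ, y₁ < y₂ → y₂ ≤ m → (m : ℝ) / Real.log m ^ A ≤ (y₂ : ℝ) - y₁ →
    13 / 10 * (((y₂ : ℝ) - y₁) / Real.log m ^ 2) ≤ (Gb m y₁ y₂).card ∧
    |((Gb m y₁ y₂).card : ℝ) - sing m * (((y₂ : ℝ) - y₁) / Real.log m ^ 2)| ≤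
      ε * (sing m * (((y₂ : ℝ) - y₁) / Real.log m ^ 2))

/-- Let `J` be a set of primes `q < m` with `m - q` prime, with at least `m / log ^ D m` elements. Let
`K₀ log log m ≤ y ≤ K₁ log log m`, let `P` be the product of the primes up to `y`, and let `P (g₀ + t)`,
`1 ≤ t ≤ G`, and `P (g₁ + t)`, `1 ≤ t ≤ G'`, be windows of shifts up to `m` of length at least `m / log ^ E m`.
For all but `ε G` of the shifts `h` of the first window at least `(1 - ε) |J| / (V y log m)` of the `q` in `J` have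
`p (q + 2) + h` prime; and for all but `ε G G'` of the pairs of shifts `(h, h')` at least
`(1 - ε) |J| / (V y log m) ^ 2` of the `q` in `J` have both `p (q + 2) + h` and `p (m - q + 2) + h'` prime. -/
def Shifts (ε : ℝ) (D E K₀ K₁ m : ℕ) : Prop :=
  ∀ J ⊆ Gb m 0 m, (m : ℝ) ≤ J.card * Real.log m ^ D →
  ∀ y : ℕ, K₀ * Real.log (Real.log m) ≤ y → y ≤ K₁ * Real.log (Real.log m) →
  ∀ g₀ G : ℕ, primorial y * (g₀ + G) ≤ m → (m : ℝ) ≤ primorial y * G * Real.log m ^ E →
    (((Icc 1 G).filter (fun t => ((J.filter (fun q => (p (q + 2) + primorial y * (g₀ + t)).Prime)).card : ℝ) <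
      (1 - ε) * (J.card / (V y * Real.log m)))).card : ℝ) ≤ ε * G ∧
    ∀ g₁ G' : ℕ, primorial y * (g₁ + G') ≤ m → (m : ℝ) ≤ primorial y * G' * Real.log m ^ E →
      (((Icc 1 G ×ˢ Icc 1 G').filter (fun t => ((J.filter (fun q =>
        (p (q + 2) + primorial y * (g₀ + t.1)).Prime ∧ (p (m - q + 2) + primorial y * (g₁ + t.2)).Prime)).card : ℝ) <
        (1 - ε) * (J.card / (V y * Real.log m) ^ 2))).card : ℝ) ≤ ε * (G * G')

/-- For every `l ≥ 2`, `J`, `W` and `A` there is a constant `C` such that for all `D`, `E` and `0 < ε ≤ 1` there is a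
`K₀` such that for all `K₁` there is an `N₀` with the following property. Let `T` be an arbitrary set of integers which
contains an element of every interval `[x, l x]`, `x ≥ 1` (the constants do not depend on `T`). Then every integer
`N ≥ N₀` is the sum of an integer `v ≥ N / 2` and of at most `C (log log N) ^ 2` distinct elements of `T`, such that
ALL the even `m > 0` which are multiples `m ≤ r log ^ J N` of an `r` with `|r - v| ≤ log ^ W N` satisfy `Windows` and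
`Shifts`. -/
theorem result (l : ℕ) (hl : 2 ≤ l) (J W A : ℕ) : ∃ C : ℝ, ∀ (D E : ℕ) (ε : ℝ), 0 < ε → ε ≤ 1 →
    ∃ K₀ : ℕ, ∀ K₁ : ℕ, ∃ N₀ : ℕ, ∀ T : Set ℕ,
    (∀ x : ℕ, 1 ≤ x → ∃ a ∈ T, x ≤ a ∧ a ≤ l * x) → ∀ N : ℕ, N₀ ≤ N →
      ∃ S : Finset ℕ, (∀ a ∈ S, a ∈ T) ∧ (S.card : ℝ) ≤ C * Real.log (Real.log N) ^ 2 ∧
        ∃ v : ℕ, v + ∑ a ∈ S, a = N ∧ N ≤ 2 * v ∧
          ∀ r : ℕ, |(r : ℝ) - v| ≤ Real.log N ^ W →
            ∀ m : ℕ, 0 < m → Even m → r ∣ m → (m : ℝ) ≤ r * Real.log N ^ J →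
              Windows ε A m ∧ Shifts ε D E K₀ K₁ m := by
  obtain ⟨C, hC⟩ := Pool.Agent.P8H89.GM.las_mult l hl J W A
  refine ⟨C, fun D E ε hε hε1 => ?_⟩
  obtain ⟨K₀, hK₀⟩ := Pool.Agent.P8H89.GM.ix_core D E ε hε hε1
  refine ⟨K₀, fun K₁ => ?_⟩
  obtain ⟨m₀, hm₀⟩ := hK₀ K₁
  obtain ⟨N₀, h0⟩ := hC (m₀ + 3) (min ε (1 / 200)) (lt_min hε (by norm_num))
    (fun m => Windows ε A m ∧ Shifts ε D E K₀ K₁ m) (fun m hm _ hw => by
      refine ⟨fun y₁ y₂ h1 h2 h3 => ?_, fun I hI hI2 y hy1 hy2 g₀ G hg1 hg2 => ?_⟩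
      · exact (MP_dd84fd_nt.QuadraticNeighbourhoods.holds_of A ε m (by omega) hw).2 y₁ y₂ h1 h2 h3
      · refine hm₀ m (by omega) I (fun q hq => ?_) hI2 y hy1 hy2 g₀ G hg1 hg2
        have h1 := hI hq
        unfold Gb at h1
        rw [mem_filter, mem_Ioc] at h1
        rw [mem_range]
        have h2 := h1.2.2.pos
        omega)
  refine ⟨N₀, fun T hT N hN => ?_⟩
  obtain ⟨S, s1, s2, s3, s4⟩ := h0 T hT N hN
  refine ⟨S, s1, s2, N - ∑ a ∈ S, a, by omega, by omega, fun r hr n hn0 hn2 hrn hnr => ?_⟩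
  obtain ⟨h, rfl⟩ := hrn
  have hr1 : 1 ≤ r := by
    rcases Nat.eq_zero_or_pos r with rfl | h0
    · simp at hn0
    · exact h0
  have hh1 : 1 ≤ h := by
    rcases Nat.eq_zero_or_pos h with rfl | h0
    · simp at hn0
    · exact h0
  have hr0 : (0 : ℝ) < r := by exact_mod_cast hr1
  have hh2 : (h : ℝ) ≤ Real.log N ^ J := by
    push_cast at hnr
    exact le_of_mul_le_mul_left hnr hr0
  have hSN : ∑ a ∈ S, a ≤ N := by omega
  have e0 : ((N - ∑ a ∈ S, a : ℕ) : ℤ) = (N : ℤ) - ((∑ a ∈ S, a : ℕ) : ℤ) := Nat.cast_sub hSN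
  have e : (h : ℤ) * ((N : ℤ) - ((∑ a ∈ S, a : ℕ) : ℤ) + ((r : ℤ) - ((N - ∑ a ∈ S, a : ℕ) : ℤ))) =
      ((r * h : ℕ) : ℤ) := by
    rw [e0]
    push_cast
    ring
  have h5 := s4 h hh1 hh2 ((r : ℤ) - ((N - ∑ a ∈ S, a : ℕ) : ℤ)) (by push_cast; exact hr)
    (by rw [e]; exact_mod_cast hn0) (by rw [e]; exact_mod_cast hn2.two_dvd)
  rw [e, Int.toNat_natCast] at h5
  exact h5

end Pool.Agent.Results.MP_0ec542_nt.ElementsOfAnySet
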