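import Pool.Agent.P8H6.Evn.Core

set_option autoImplicit false

/-!
# EVERY large even number `m`: primes `q` with `m - q` almost prime and `p_{q + 2} + h` prime

The question asks, for every `m = 2 n > 4`, for a prime `q` with `m - q` and `p_{q + 2} + 2` prime. Here `2` is replaced
by almost all multiples `h` of the product `P` of the primes up to `y ≍ log log m` in windows of shifts, and the condition that `m - q` is
prime by the condition that it is a product of at most `r` large primes: `r = 3` for every large even `m`, `r = 2` for all but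
`O(X ^ (1/11 + η))` of the even `m ≤ X`. Then the number of these `q` has the right order of magnitude. More
generally, `q` may be restricted to the size `m ^ θ`, and to an arbitrary subset, of a density at least a negative power
of `log m`, of the set of the primes `q` for which `m - q` is almost prime.
-/

namespace Pool.Agent.Results.MP_0ec542_nt.EveryNumber

open Finset

/-- The `k`-th prime: `p 1 = 2`, `p 2 = 3`, and so on. -/
noncomputable def p (k : ℕ) : ℕ := Nat.nth Nat.Prime (k - 1)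

open Classical in
/-- The primes `q < m` with `m ^ θ / 4 < q < m ^ θ` such that `m - q` has at most `r` prime factors (counted with
multiplicity), all of them at least `m ^ ζ / 2`. -/
noncomputable def B (r : ℕ) (θ ζ : ℝ) (m : ℕ) : Finset ℕ :=
  (range m).filter (fun q : ℕ => q.Prime ∧ (m : ℝ) ^ θ / 4 < q ∧ (q : ℝ) < (m : ℝ) ^ θ ∧
    (m - q).primeFactorsList.length ≤ r ∧ ∀ l : ℕ, l.Prime → l ∣ (m - q) → (m : ℝ) ^ ζ / 2 ≤ l)

/-- The variable part of the singular series of the Goldbach problem. -/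
noncomputable def sing (m : ℕ) : ℝ := ∏ l ∈ m.primeFactors.erase 2, (((l : ℝ) - 1) / ((l : ℝ) - 2))

/-- `V y = ∏_{l ≤ y} (1 - 1 / l)`. An integer `n ≤ N` prime to all primes `l ≤ y` is prime with probability
`1 / (V y log N)`. -/
noncomputable def V (y : ℕ) : ℝ := ∏ l ∈ (Icc 1 y).filter Nat.Prime, (1 - 1 / (l : ℝ))

/-- `B = B r θ ζ m` has at least `δ sing m m ^ θ / log² m` elements. Let `K₀ log log m ≤ y ≤ K₁ log log m`, let `P` be
the product of the primes up to `y`, and let `P (g₀ + t)`, `1 ≤ t ≤ G`, be a window of shifts up to `m ^ θ`, of length at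
least `m ^ θ / log^C m`. Let `J` be a subset of `B` with at least `|B| / log^A m` elements. For all but at most `ε G` of
the shifts `h` of the window, at least `(1 - ε) |J| / (V y θ log m)` of the `q` in `J` have `p (q + 2) + h` prime. -/
def Good (r : ℕ) (θ ζ δ : ℝ) (A C : ℕ) (ε : ℝ) (K₀ K₁ m : ℕ) : Prop :=
  δ * sing m * ((m : ℝ) ^ θ / Real.log m ^ 2) ≤ (B r θ ζ m).card ∧
  ∀ y : ℕ, K₀ * Real.log (Real.log m) ≤ y → y ≤ K₁ * Real.log (Real.log m) →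
    ∀ g₀ G : ℕ, ((primorial y * (g₀ + G) : ℕ) : ℝ) ≤ (m : ℝ) ^ θ →
      (m : ℝ) ^ θ ≤ primorial y * G * Real.log m ^ C →
    ∀ J ⊆ B r θ ζ m, ((B r θ ζ m).card : ℝ) ≤ J.card * Real.log m ^ A →
      (((Icc 1 G).filter (fun t => ((J.filter (fun q => (p (q + 2) + primorial y * (g₀ + t)).Prime)).card : ℝ) <
        (1 - ε) * (J.card / (V y * (θ * Real.log m))))).card : ℝ) ≤ ε * G

theorem one_le_sing (m : ℕ) : 1 ≤ sing m := Pool.Agent.Y882.one_le_sgs m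

/-- the second part of `Good` follows from the first one for large `m` -/
theorem good_of (r : ℕ) (θ ζ δ : ℝ) (hθ0 : 0 < θ) (hθ1 : θ ≤ 1) (hδ : 0 < δ) (A C : ℕ) (ε : ℝ) (hε : 0 < ε)
    (hε1 : ε ≤ 1) : ∃ K₀ : ℕ, ∀ K₁ : ℕ, ∃ m₀ : ℕ, ∀ m : ℕ, m₀ ≤ m →
    δ * sing m * ((m : ℝ) ^ θ / Real.log m ^ 2) ≤ (B r θ ζ m).card → Good r θ ζ δ A C ε K₀ K₁ m := by
  classical
  obtain ⟨K₀, hK₀⟩ := Pool.Agent.P8H6.Evn.core θ hθ0 hθ1 (A + 3) C ε hε hε1
  refine ⟨K₀, fun K₁ => ?_⟩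
  obtain ⟨m₀, hm₀⟩ := hK₀ K₁
  obtain ⟨m₁, hm₁⟩ := Pool.Agent.H373R2.T7.ev_L' (max 1 (1 / δ))
  refine ⟨max m₀ m₁, fun m hm hB => ⟨hB, fun y hy1 hy2 g₀ G hg1 hg2 J hJ1 hJ2 => ?_⟩⟩
  have hL := hm₁ m ((le_max_right _ _).trans hm)
  have hL1 : 1 ≤ Real.log m := (le_max_left _ _).trans hL
  have hLδ : 1 / δ ≤ Real.log m := (le_max_right _ _).trans hL
  have hL0 : 0 < Real.log m := by linarith
  have hx0 : 0 ≤ (m : ℝ) ^ θ := Real.rpow_nonneg (Nat.cast_nonneg m) θ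
  refine hm₀ m ((le_max_left _ _).trans hm) y hy1 hy2 g₀ G hg1 hg2 J ?_ ?_
  · intro q hq
    have h1 := hJ1 hq
    unfold B at h1
    exact (mem_filter.1 h1).2.2.2.1.le
  · have h1 : δ * ((m : ℝ) ^ θ / Real.log m ^ 2) ≤ (B r θ ζ m).card := by
      refine le_trans ?_ hB
      apply mul_le_mul_of_nonneg_right _ (by positivity)
      nlinarith [one_le_sing m]
    have h2 : (m : ℝ) ^ θ ≤ (B r θ ζ m).card * Real.log m ^ 3 := by
      rw [← mul_div_assoc, div_le_iff₀ (by positivity)] at h1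
      have h3 : 1 ≤ δ * Real.log m := by
        rw [div_le_iff₀ hδ] at hLδ
        linarith
      calc (m : ℝ) ^ θ ≤ (δ * Real.log m) * (m : ℝ) ^ θ := by nlinarith
        _ = (δ * (m : ℝ) ^ θ) * Real.log m := by ring
        _ ≤ ((B r θ ζ m).card * Real.log m ^ 2) * Real.log m := mul_le_mul_of_nonneg_right h1 hL0.le
        _ = (B r θ ζ m).card * Real.log m ^ 3 := by ring
    calc (m : ℝ) ^ θ ≤ (B r θ ζ m).card * Real.log m ^ 3 := h2
      _ ≤ (J.card * Real.log m ^ A) * Real.log m ^ 3 := mul_le_mul_of_nonneg_right hJ2 (by positivity)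
      _ = J.card * Real.log m ^ (A + 3) := by ring

/-- **Every large even number.** (1) Let `0 < τ < θ / 2`, `θ ≤ 1` and `10 / 9 < (r + 3 / 80) τ` (for example `r = 3`,
`θ = 1`, `τ = 0.4`). There is a `δ > 0` such that for all `A`, `C`, `0 < ε ≤ 1` there is a `K₀` such that for all `K₁`
EVERY large even `m` is good for `r`, `θ`, `ζ = τ / 4`. (2) Let `r = 3`, `1 / 2 ≤ τ < 1`, `ζ = 2 τ / 5` or `r = 2`,
`6 / 11 ≤ τ < 1`, `ζ = τ / 4`, and let `0 < θ ≤ 1`, `η > 0`. There is a `δ > 0` such that for all `A`, `C`,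
`0 < ε ≤ 1` there is a `K₀` such that for all `K₁` all but `O(X ^ (2 τ - θ + η))` of the even `m ≤ X` are good (for
`θ = 1`, `r = 2`: all but `O(X ^ (1 / 11 + η))`). -/
theorem result :
    (∀ (r : ℕ) (θ τ : ℝ), 0 < τ → τ < θ / 2 → θ ≤ 1 → 10 / 9 < (r + 3 / 80) * τ →
      ∃ δ : ℝ, 0 < δ ∧ ∀ (A C : ℕ) (ε : ℝ), 0 < ε → ε ≤ 1 → ∃ K₀ : ℕ, ∀ K₁ : ℕ, ∃ m₀ : ℕ, ∀ m : ℕ, m₀ ≤ m → Even m →
        Good r θ (τ / 4) δ A C ε K₀ K₁ m) ∧
    (∀ (r : ℕ) (θ τ ζ η : ℝ), (r = 3 ∧ 1 / 2 ≤ τ ∧ ζ = 2 / 5 * τ) ∨ (r = 2 ∧ 6 / 11 ≤ τ ∧ ζ = τ / 4) →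
      τ < 1 → 0 < θ → θ ≤ 1 → 0 < η →
      ∃ δ : ℝ, 0 < δ ∧ ∀ (A C : ℕ) (ε : ℝ), 0 < ε → ε ≤ 1 → ∃ K₀ : ℕ, ∀ K₁ : ℕ, ∃ D : ℝ, ∀ X : ℕ, 1 ≤ X →
        ({m : ℕ | 1 ≤ m ∧ m ≤ X ∧ Even m ∧ ¬ Good r θ ζ δ A C ε K₀ K₁ m}.ncard : ℝ) ≤
          D * (X : ℝ) ^ (2 * τ - θ + η)) := by
  classical
  constructor
  · intro r θ τ hτ hτθ hθ1 hr
    obtain ⟨δ, hδ, N0, h⟩ := Pool.Agent.Y882.GX.smallEvery r θ τ hτ hτθ hθ1 hr
    refine ⟨δ, hδ, fun A C ε hε hε1 => ?_⟩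
    obtain ⟨K₀, hK₀⟩ := good_of r θ (τ / 4) δ (by linarith) hθ1 hδ A C ε hε hε1
    refine ⟨K₀, fun K₁ => ?_⟩
    obtain ⟨m₀, hm₀⟩ := hK₀ K₁
    refine ⟨max m₀ N0, fun m hm hev => hm₀ m ((le_max_left _ _).trans hm) ?_⟩
    have h1 := h m ((le_max_right _ _).trans hm) hev
    refine h1.trans (le_of_eq ?_)
    unfold Pool.Agent.Y882.GX.smallP B
    congr!
  · intro r θ τ ζ η hpar hτ hθ0 hθ1 hη
    obtain ⟨δ, C₁, hδ, hC₁, h⟩ := Pool.Agent.Y882.GX.smallFew r θ τ ζ η hpar hτ hθ0 hθ1 hη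
    refine ⟨δ, hδ, fun A C ε hε hε1 => ?_⟩
    obtain ⟨K₀, hK₀⟩ := good_of r θ ζ δ hθ0 hθ1 hδ A C ε hε hε1
    refine ⟨K₀, fun K₁ => ?_⟩
    obtain ⟨m₀, hm₀⟩ := hK₀ K₁
    refine ⟨C₁ + m₀, fun X hX => ?_⟩
    have hτ2 : 1 / 2 ≤ τ := by
      rcases hpar with ⟨_, h, _⟩ | ⟨_, h, _⟩ <;> linarith
    have hX1 : (1 : ℝ) ≤ X := by exact_mod_cast hX
    have hp1 : (1 : ℝ) ≤ (X : ℝ) ^ (2 * τ - θ + η) := Real.one_le_rpow hX1 (by linarith)
    have hsub : {m : ℕ | 1 ≤ m ∧ m ≤ X ∧ Even m ∧ ¬ Good r θ ζ δ A C ε K₀ K₁ m} ⊆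
        (((Icc 1 X).filter (fun N : ℕ => Even N ∧ (Pool.Agent.Y882.GX.smallP r θ ζ N : ℝ) <
          δ * Pool.Agent.Y882.sgs N * ((N : ℝ) ^ θ / Real.log N ^ 2)) ∪ range m₀ : Finset ℕ) : Set ℕ) := by
      rintro m ⟨h1, h2, h3, h4⟩
      rw [mem_coe, mem_union, mem_filter, mem_Icc, mem_range]
      by_cases hm : m < m₀
      · exact Or.inr hm
      · left
        refine ⟨⟨h1, h2⟩, h3, ?_⟩
        by_contra hcon
        rw [not_lt] at hcon
        apply h4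
        apply hm₀ m (not_lt.1 hm)
        refine le_trans hcon (le_of_eq ?_)
        unfold Pool.Agent.Y882.GX.smallP B
        congr!
    have hcard := Set.ncard_le_ncard hsub (Finset.finite_toSet _)
    rw [Set.ncard_coe_finset] at hcard
    have h5 := (Nat.cast_le (α := ℝ)).2 (hcard.trans (card_union_le _ _))
    rw [card_range] at h5
    push_cast at h5
    have h6 := h X hX
    have h7 : (0 : ℝ) ≤ m₀ := Nat.cast_nonneg _
    calc _ ≤ _ := h5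
      _ ≤ C₁ * (X : ℝ) ^ (2 * τ - θ + η) + m₀ * (X : ℝ) ^ (2 * τ - θ + η) := by
          apply add_le_add
          · convert h6
          · nlinarith
      _ = (C₁ + m₀) * (X : ℝ) ^ (2 * τ - θ + η) := by ring

end Pool.Agent.Results.MP_0ec542_nt.EveryNumber
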