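import Pool.Agent.P8H89.GM.Rs
import Pool.Agent.P8H89.GM.Ix
import Pool.Agent.Y958.RM.Rnd
import Pool.Agent.Results.MP_dd84fd_nt.QuadraticNeighbourhoods

/-!
# All the even multiples `m` of all the neighbours of almost all sums of independent random integers are sums `m = q + q'`
of primes for which `p_{q + 2} + h` (and `p_{q' + 2} + h'`) are prime, for almost all shifts

The question asks, for every even `m = 2 n > 4`, for a prime `q` with `m - q` and `p_{q + 2} + 2` prime. Here `2` is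
replaced by almost all multiples `h` of the product of the primes up to `y ≍ log log m`. The set of the `q` may be
restricted to long windows, and to arbitrary subsets of a density at least a negative power of `log m`.

The statement uses the following definition from `Pool.Agent.H560R3.GB`: `sing m`: the singular series
`2 C₂ ∏_{p ∣ m, p > 2} (p - 1) / (p - 2)`, where `C₂ = ∏_{p > 2} (1 - 1 / (p - 1) ^ 2)`.
-/

set_option autoImplicit false

namespace Pool.Agent.Results.MP_0ec542_nt.RandomSums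

open Finset Pool.Agent.H560R3.GB

/-- The `k`-th prime: `p 1 = 2`, `p 2 = 3`, and so on. -/
noncomputable def p (k : ℕ) : ℕ := Nat.nth Nat.Prime (k - 1)

/-- The primes `q` in `(y₁, y₂]` with `m - q` prime. -/
def Gb (m y₁ y₂ : ℕ) : Finset ℕ := (Ioc y₁ y₂).filter (fun q => q.Prime ∧ (m - q).Prime)

/-- `V y = ∏_{p ≤ y} (1 - 1 / p)`. An integer `n ≤ m` prime to all `p ≤ y` is prime with probability
`1 / (V y log m)`. -/
noncomputable def V (y : ℕ) : ℝ := ∏ p ∈ (Icc 1 y).filter Nat.Prime, (1 - 1 / (p : ℝ))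

/-- For all windows `(y₁, y₂] ⊆ (0, m]` of length at least `m / log ^ A m` the number of the `q` in the window with
`q` and `m - q` prime is at least `1.3 (y₂ - y₁) / log ^ 2 m`, and it is `sing m * (y₂ - y₁) / log ^ 2 m` up to a
relative error of at most `ε`. -/
def Windows (ε : ℝ) (A m : ℕ) : Prop :=
  ∀ y₁ y₂ : ℕ, y₁ < y₂ → y₂ ≤ m → (m : ℝ) / Real.log m ^ A ≤ (y₂ : ℝ) - y₁ →
    13 / 10 * (((y₂ : ℝ) - y₁) / Real.log m ^ 2) ≤ (Gb m y₁ y₂).card ∧
    |((Gb m y₁ y₂).card : ℝ) - sing m * (((y₂ : ℝ) - y₁) / Real.log m ^ 2)| ≤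
      ε * (sing m * (((y₂ : ℝ) - y₁) / Real.log m ^ 2))

/-- Let `J` be a set of primes `q < m` with `m - q` prime, with at least `m / log ^ D m` elements. Let
`K₀ log log m ≤ y ≤ K₁ log log m`, let `P` be the product of the primes up to `y`, and let `P (g₀ + t)`,
`1 ≤ t ≤ G`, and `P (g₁ + t)`, `1 ≤ t ≤ G'`, be windows of shifts up to `m` of length at least `m / log ^ E m`.
For all but `ε G` of the shifts `h` of the first window at least `(1 - ε) |J| / (V y log m)` of the `q` in `J` have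
`p (q + 2) + h` prime; and for all but `ε G G'` of the pairs of shifts `(h, h')` at least
`(1 - ε) |J| / (V y log m) ^ 2` of the `q` in `J` have both `p (q + 2) + h` and `p (m - q + 2) + h'` prime. -/
def Shifts (ε : ℝ) (D E K₀ K₁ m : ℕ) : Prop :=
  ∀ J ⊆ Gb m 0 m, (m : ℝ) ≤ J.card * Real.log m ^ D →
  ∀ y : ℕ, K₀ * Real.log (Real.log m) ≤ y → y ≤ K₁ * Real.log (Real.log m) →
  ∀ g₀ G : ℕ, primorial y * (g₀ + G) ≤ m → (m : ℝ) ≤ primorial y * G * Real.log m ^ E →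
    (((Icc 1 G).filter (fun t => ((J.filter (fun q => (p (q + 2) + primorial y * (g₀ + t)).Prime)).card : ℝ) <
      (1 - ε) * (J.card / (V y * Real.log m)))).card : ℝ) ≤ ε * G ∧
    ∀ g₁ G' : ℕ, primorial y * (g₁ + G') ≤ m → (m : ℝ) ≤ primorial y * G' * Real.log m ^ E →
      (((Icc 1 G ×ˢ Icc 1 G').filter (fun t => ((J.filter (fun q =>
        (p (q + 2) + primorial y * (g₀ + t.1)).Prime ∧ (p (m - q + 2) + primorial y * (g₁ + t.2)).Prime)).card : ℝ) <
        (1 - ε) * (J.card / (V y * Real.log m) ^ 2))).card : ℝ) ≤ ε * (G * G')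

/-- ALL the even `m > 0` which are multiples `m ≤ H r` of an integer `r` with `|r - v| ≤ Q` satisfy `Windows` and
`Shifts`. -/
def Good (ε H : ℝ) (A D E K₀ K₁ : ℕ) (Q v : ℤ) : Prop :=
  ∀ r : ℕ, |(r : ℤ) - v| ≤ Q → ∀ m : ℕ, 0 < m → Even m → r ∣ m → (m : ℝ) ≤ r * H →
    Windows ε A m ∧ Shifts ε D E K₀ K₁ m

/-- The set `T` of scales below `k` is rich: it contains more than three fifths of all the scales, more
than one half of the `m` lowest scales, and a positive proportion of the `m` highest scales (the last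
two conditions are void for `m ≤ R log k`). -/
structure Rich (δ : ℝ) (R k : ℕ) (T : Finset ℕ) : Prop where
  lt : ∀ j ∈ T, j < k
  all : (3 / 5 + δ) * k ≤ (T.card : ℝ)
  low : ∀ m ≤ k, (1 / 2 + δ) * m ≤ ((T.filter fun j => j < m).card : ℝ) + R * Real.log k
  high : ∀ m ≤ k, δ * m ≤ ((T.filter fun j => k - m ≤ j).card : ℝ) + R * Real.log k

open Classical in
/-- The probability of the event `E` if `x 0, ..., x (k - 1)` are independent random integers, where
`x j` takes its values in the finite set `s j`, and the value `x` with the probability `p j x`. -/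
noncomputable def Prob (k : ℕ) (s : ℕ → Finset ℤ) (p : ℕ → ℤ → ℝ) (E : (Fin k → ℤ) → Prop) : ℝ :=
  ∑ x ∈ Fintype.piFinset (fun j : Fin k => s j), if E x then ∏ j : Fin k, p j (x j) else 0

/-- a bad value of the sum gives a bad multiple of a neighbour (used in the proof only) -/
lemma bad_of (ε : ℝ) (A D E K₀ K₁ J W k : ℕ) (z : ℤ)
    (h : ¬ Good ε ((k : ℝ) ^ J) A D E K₀ K₁ ((k : ℤ) ^ W) z) :
    ∃ h : ℕ, 1 ≤ h ∧ h ≤ k ^ J ∧ ∃ r : ℤ, |r| ≤ (k : ℤ) ^ W ∧ 0 < (h : ℤ) * (z + r) ∧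
      2 ∣ (h : ℤ) * (z + r) ∧ ¬ (Windows ε A ((h : ℤ) * (z + r)).toNat ∧
        Shifts ε D E K₀ K₁ ((h : ℤ) * (z + r)).toNat) := by
  unfold Good at h
  push Not at h
  obtain ⟨q, hqz, n, hn0, hn2, ⟨h, rfl⟩, hnq, hbad⟩ := h
  have hq1 : 1 ≤ q := by
    rcases Nat.eq_zero_or_pos q with rfl | h0
    · simp at hn0
    · exact h0
  have hq0 : (0 : ℝ) < q := by exact_mod_cast hq1
  have hh1 : 1 ≤ h := by
    rcases Nat.eq_zero_or_pos h with rfl | h0
    · simp at hn0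
    · exact h0
  have hh2 : (h : ℝ) ≤ (k : ℝ) ^ J := by
    push_cast at hnq
    exact le_of_mul_le_mul_left hnq hq0
  have e : (h : ℤ) * (z + ((q : ℤ) - z)) = ((q * h : ℕ) : ℤ) := by push_cast; ring
  refine ⟨h, hh1, by exact_mod_cast hh2, (q : ℤ) - z, hqz, ?_⟩
  rw [e, Int.toNat_natCast]
  exact ⟨by exact_mod_cast hn0, by exact_mod_cast hn2.two_dvd, fun h => hbad h.1 h.2⟩

open Classical in
/-- Let `b ≥ 2`, `B ≥ 1`, `R`, `J`, `W`, `U`, `A`, `D`, `E`, `η > 0`, `δ > 0` and `0 < ε ≤ 1` be fixed. There is a `K₀`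
such that for all `K₁` the following holds for all large `k` and all rich sets `T` of scales below `k`.

(1) Let `x 0, ..., x (k - 1)` be arbitrary independent random integers with `|x j| ≤ B b ^ j` such that,
for all `j` in `T`, no interval of the length `b ^ j / B` contains `x j` with a probability larger than
`1 - η` (nothing is assumed for the other `j`: these `x j` may be constants). Let `c` be an arbitrary
integer with `|c| ≤ B b ^ k`. Then, with a probability of at least `1 - 1 / k ^ U`, ALL the even integers `m > 0`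
which are multiples `m ≤ k ^ J r` of an `r` at a distance of at most `k ^ W` from `c + x 0 + ... + x (k - 1)` satisfy
`Windows` and `Shifts`.

(2) Let `A' 0, ..., A' (k - 1)` be arbitrary nonempty sets of digits in base `b`, such that `A' j` has at
least two elements if `j` is in `T` (the other digits may be prescribed). Then the same holds for all
the integers `v < b ^ k` (in the place of the random sum) whose digit at the place `j` belongs to `A' j` for all
`j < k`, with at most `(#A' 0 ⋯ #A' (k - 1)) / k ^ U` exceptions. -/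
theorem result (b B R J W U A D E : ℕ) (hb : 2 ≤ b) (hB : 1 ≤ B) (η δ ε : ℝ) (hη : 0 < η) (hδ : 0 < δ)
    (hε : 0 < ε) (hε1 : ε ≤ 1) : ∃ K₀ : ℕ, ∀ K₁ : ℕ, ∃ k₀ : ℕ, ∀ k : ℕ, k₀ ≤ k →
    ∀ T : Finset ℕ, Rich δ R k T →
      (∀ (s : ℕ → Finset ℤ) (p : ℕ → ℤ → ℝ),
        (∀ j < k, (∀ x ∈ s j, 0 ≤ p j x ∧ |x| ≤ (B : ℤ) * (b : ℤ) ^ j) ∧ ∑ x ∈ s j, p j x = 1) →
        (∀ j ∈ T, ∀ y : ℤ,
          ∑ x ∈ (s j).filter (fun x => y ≤ x ∧ (B : ℤ) * (x - y) ≤ (b : ℤ) ^ j), p j x ≤ 1 - η) →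
        ∀ c : ℤ, |c| ≤ (B : ℤ) * (b : ℤ) ^ k →
          Prob k s p (fun x => ¬ Good ε ((k : ℝ) ^ J) A D E K₀ K₁ ((k : ℤ) ^ W) (c + ∑ j, x j)) ≤
            1 / (k : ℝ) ^ U) ∧
      (∀ A' : ℕ → Finset ℕ, (∀ j < k, (A' j).Nonempty ∧ ∀ a ∈ A' j, a < b) →
        (∀ j ∈ T, 2 ≤ (A' j).card) →
        (((range (b ^ k)).filter fun v : ℕ => (∀ j < k, v / b ^ j % b ∈ A' j) ∧
            ¬ Good ε ((k : ℝ) ^ J) A D E K₀ K₁ ((k : ℤ) ^ W) v).card : ℝ) ≤
          (∏ j ∈ range k, ((A' j).card : ℝ)) / (k : ℝ) ^ U) := by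
  obtain ⟨K₀, hK₀⟩ := Pool.Agent.P8H89.GM.ix_core D E ε hε hε1
  refine ⟨K₀, fun K₁ => ?_⟩
  obtain ⟨m₀, hm₀⟩ := hK₀ K₁
  have hP : ∀ m : ℕ, m₀ + 3 ≤ m → 2 ∣ m → Pool.Agent.W93.PG.WinP (min ε (1 / 200)) A m →
      Windows ε A m ∧ Shifts ε D E K₀ K₁ m := by
    intro m hm _ hw
    refine ⟨fun y₁ y₂ h1 h2 h3 => ?_, fun I hI hI2 y hy1 hy2 g₀ G hg1 hg2 => ?_⟩
    · exact (MP_dd84fd_nt.QuadraticNeighbourhoods.holds_of A ε m (by omega) hw).2 y₁ y₂ h1 h2 h3
    · refine hm₀ m (by omega) I (fun q hq => ?_) hI2 y hy1 hy2 g₀ G hg1 hg2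
      have h1 := hI hq
      unfold Gb at h1
      rw [mem_filter, mem_Ioc] at h1
      rw [mem_range]
      have h2 := h1.2.2.pos
      omega
  have main : ∀ (B : ℕ), 1 ≤ B → ∀ η : ℝ, 0 < η → ∃ k₀ : ℕ, ∀ k : ℕ, k₀ ≤ k → ∀ T : Finset ℕ,
      Pool.Agent.Y885.Rich δ R k T → ∀ (s : ℕ → Finset ℤ) (p : ℕ → ℤ → ℝ) (c : ℤ),
      (∀ j < k, (∀ x ∈ s j, 0 ≤ p j x ∧ |x| ≤ (B : ℤ) * (b : ℤ) ^ j) ∧ ∑ x ∈ s j, p j x = 1) →
      (∀ j ∈ T, ∀ y : ℤ,
        ∑ x ∈ s j, (if y ≤ x ∧ (B : ℤ) * (x - y) ≤ (b : ℤ) ^ j then p j x else 0) ≤ 1 - η) →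
      |c| ≤ (B : ℤ) * (b : ℤ) ^ k →
      ∑ ω ∈ Fintype.piFinset (fun j : Fin k => s j),
        (if ¬ Good ε ((k : ℝ) ^ J) A D E K₀ K₁ ((k : ℤ) ^ W) (c + ∑ j : Fin k, ω j) then
          ∏ j : Fin k, p j (ω j) else 0) ≤ 1 / (k : ℝ) ^ U := by
    intro B hB η hη
    obtain ⟨k₁, h1⟩ := Pool.Agent.P8H89.GM.mult b B R J W U (m₀ + 3) A hb hB η δ (min ε (1 / 200)) hη hδ
      (lt_min hε (by norm_num)) (fun m => Windows ε A m ∧ Shifts ε D E K₀ K₁ m) hP
    refine ⟨k₁, fun k hk T hT s p c hs hp hc => ?_⟩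
    refine le_trans ?_ (h1 k hk T s p c hT hs hp hc)
    apply sum_le_sum
    intro ω hω
    have hp0 : 0 ≤ ∏ j : Fin k, p j (ω j) := by
      rw [Fintype.mem_piFinset] at hω
      exact prod_nonneg fun j _ => ((hs j j.2).1 _ (hω j)).1
    by_cases h3 : Good ε ((k : ℝ) ^ J) A D E K₀ K₁ ((k : ℤ) ^ W) (c + ∑ j : Fin k, ω j)
    · rw [if_neg (not_not_intro h3)]
      split_ifs
      · exact hp0
      · exact le_rfl
    · rw [if_pos h3, if_pos (bad_of ε A D E K₀ K₁ J W k _ h3)]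
  obtain ⟨k₁, h1⟩ := main B hB η hη
  obtain ⟨k₂, h2⟩ := main b (by omega) (1 / 2) (by norm_num)
  refine ⟨k₁ + k₂, fun k hk T hT => ?_⟩
  have hT' : Pool.Agent.Y885.Rich δ R k T := ⟨hT.lt, hT.low, hT.high, hT.all⟩
  refine ⟨fun s p hs hp c hc => ?_, fun A' hA hAT => ?_⟩
  · refine le_trans (le_of_eq ?_) (h1 k (by omega) T hT' s p c hs
      (fun j hj y => by rw [← sum_filter]; exact hp j hj y) hc)
    unfold Prob
    apply sum_congr rfl
    intro x _
    congr
  · have h3 := Pool.Agent.Y958.RM.rand_digits' b hb U k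
      (fun z => ¬ Good ε ((k : ℝ) ^ J) A D E K₀ K₁ ((k : ℤ) ^ W) z) T
      (fun s p c hs hp hc => by
        refine le_trans (le_of_eq ?_) (h2 k (by omega) T hT' s p c hs hp hc)
        apply sum_congr rfl
        intro x _
        congr) A' hA hAT
    refine le_trans (le_of_eq ?_) h3
    congr

end Pool.Agent.Results.MP_0ec542_nt.RandomSums
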